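import Pool.Agent.Lib.MP_039f74_co.Bound
import Pool.Agent.Lib.MP_039f74_co.Witness

/-!
The exact range of bases `b ≤ 4` for which a small edge boundary forces `|A| ≥ b ^ (γ n)`.
-/

open Finset Pool.Agent.Lib.MP_039f74_co

theorem Pool.Agent.Results.MP_039f74_co.SharpBase.result (m d : ℕ) (hm : 2 ≤ m) (hd : 1 ≤ d)
    (γ b : ℝ) (hγ0 : 0 < γ) (hγ1 : γ ≤ 1) (hb0 : 0 < b) (hb4 : b ≤ 4) :
    (∀ (G : Type) [AddCommGroup G] [Fintype G] [DecidableEq G] (S A : Finset G),
      (∃ f : G →+ (Fin (AddGroup.rank G) → ZMod m), Function.Surjective f) →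
      AddSubgroup.closure (S : Set G) = ⊤ →
      IsLeast (addOrderOf '' (S : Set G)) d →
      A.Nonempty →
      (((A ×ˢ S).filter (fun p => p.1 + p.2 ∉ A)).card : ℝ)
        ≤ (1 - γ) * (AddGroup.rank G : ℝ) * (A.card : ℝ) →
      b ^ (γ * (AddGroup.rank G : ℝ)) ≤ (A.card : ℝ)) ↔ b ≤ m := by
  have : NeZero m := ⟨by omega⟩
  have m1 : (1 : ℝ) < m := by exact_mod_cast hm
  have L0 := Real.log_pos m1
  refine ⟨fun H => not_lt.1 fun hb => ?_, fun hb G _ _ _ S A ⟨f, hf⟩ hS _ hA h => ?_⟩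
  · have : NeZero (m * d) := ⟨by positivity⟩
    have d1 : (1 : ℝ) ≤ d := by exact_mod_cast hd
    have l0 := Real.log_nonneg d1
    have g0 : 0 < Real.log b - Real.log m := sub_pos.2 (Real.log_lt_log (by linarith) hb)
    set N : ℕ := ⌈(Real.log m + Real.log d) / (Real.log b - Real.log m) / γ⌉₊ with hN
    have hN1 : Real.log m + Real.log d ≤ γ * N * (Real.log b - Real.log m) := by
      have h := Nat.le_ceil ((Real.log m + Real.log d) / (Real.log b - Real.log m) / γ)
      rwa [← hN, div_le_iff₀ hγ0, div_le_iff₀ g0, mul_comm (N : ℝ)] at h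
    have N0 : 0 < γ * N := pos_of_mul_pos_left (by linarith) g0.le
    set t : ℕ := ⌈γ * N⌉₊ with ht
    have ht1 : γ * N ≤ t := Nat.le_ceil _
    have ht2 : (t : ℝ) < γ * N + 1 := Nat.ceil_lt_add_one N0.le
    have htN : t ≤ N := Nat.ceil_le.2 (mul_le_of_le_one_left (Nat.cast_nonneg _) hγ1)
    have ht0 : 0 < t := Nat.ceil_pos.2 N0
    obtain ⟨j, hj⟩ : ∃ j, t = j + 1 := ⟨t - 1, by omega⟩
    obtain ⟨k, hk⟩ : ∃ k, N = t + k := ⟨N - t, by omega⟩
    have hkR : (N : ℝ) = t + k := by exact_mod_cast hk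
    have r := rank_eq m j k d hm
    have rN : (AddGroup.rank (W m j k d) : ℝ) = N := by rw [r]; norm_cast; omega
    have K := H (W m j k d) (gens m j k d) (body m j k d) (r ▸ exists_surj m j k d hm)
      (closure_gens m j k d) (isLeast_gens m j k d hm) ⟨0, (mem_body m j k d _).mpr rfl⟩ (by
        have h1 : (((body m j k d ×ˢ gens m j k d).filter
            (fun p => p.1 + p.2 ∉ body m j k d)).card : ℝ)
            ≤ (k : ℝ) * ((body m j k d).card : ℝ) := by exact_mod_cast boundary_le m j k d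
        refine h1.trans (mul_le_mul_of_nonneg_right ?_ (Nat.cast_nonneg _))
        rw [rN]; linarith)
    rw [rN, card_body, ← hj, Real.rpow_le_iff_le_log hb0 (by positivity), Nat.cast_mul,
      Nat.cast_pow, Real.log_mul (by positivity) (by positivity), Real.log_pow] at K
    nlinarith [mul_lt_mul_of_pos_right ht2 L0]
  · have A1 : (1 : ℝ) ≤ #A := by exact_mod_cast hA.card_pos
    rcases le_total b 1 with b1 | b1
    · exact (Real.rpow_le_one hb0.le b1 (by positivity)).trans A1
    have β0 := Real.log_nonneg b1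
    have K := bound f hm (fun q => funext fun i => by simp) β0
      (Real.log_le_log hb0 hb4) (Real.log_le_log hb0 hb) S A fun x _ y _ => by rw [hS]; trivial
    rw [hS, AddSubgroup.map_top_of_surjective f hf, AddSubgroup.card_top, Nat.card_fun,
      Nat.card_zmod, Nat.card_fin, Nat.cast_pow, Real.log_pow, mul_div_cancel_right₀ _ L0.ne',
      ← Nat.cast_sum, ← boundary_eq] at K
    rw [Real.rpow_le_iff_le_log hb0 (by linarith)]
    refine le_of_mul_le_mul_left ?_ (show (0 : ℝ) < #A by linarith)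
    nlinarith [mul_le_mul_of_nonneg_left h β0]
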